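import Mathlib
import Pool.Agent.Lib_MP_dea706_ag.Defs
import Pool.Agent.Lib_MP_dea706_ag.Coprime
import Pool.Agent.Lib_MP_dea706_ag.WeightOrder
import Pool.Agent.Lib_MP_dea706_ag.Pencil
import Pool.Agent.Lib_MP_dea706_ag.Negative2

/-!
# When do the determinantal polynomials generate the ideal of `SING_{n,m}`?

Notation of the problem (all definitions are in `Pool.Agent.Lib_MP_dea706_ag.Defs`):

* `CoordRing n m` is the polynomial ring `ℂ[Mat_n^m]`, with one variable `X (k, i, j)` for the `(i, j)`
  entry of the `k`-th matrix;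
* `detPoly n m c` is `f_c = det (c_1 X_1 + ... + c_m X_m)`;
* `detIdeal n m` is `J`, the ideal generated by all the `f_c`;
* `singSet n m` is `SING_{n,m}`;
* `MvPolynomial.vanishingIdeal ℂ (singSet n m)` is `I`, the ideal of all polynomials vanishing on it.

We prove that `J = I` if and only if `n = 1` or `m ≤ 2`.  In particular (for instance for
`n = 2`, `m = 3`) the determinantal polynomials do *not* always generate `I`.
-/

set_option autoImplicit false

namespace Pool.Agent.Results.MP_dea706_ag.Classification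

open MvPolynomial Pool.Agent.Lib_MP_dea706_ag

theorem zeroLocus_detIdeal (n m : ℕ) : zeroLocus ℂ (detIdeal n m) = singSet n m := by
  ext x
  rw [mem_zeroLocus_iff, mem_singSet]
  constructor
  · intro h c
    have := h _ (Ideal.subset_span ⟨c, rfl⟩)
    rwa [MvPolynomial.aeval_eq_eval] at this
  · intro h p hp
    have h1 : detIdeal n m ≤ RingHom.ker (eval x) := by
      rw [detIdeal, Ideal.span_le]
      rintro _ ⟨c, rfl⟩
      exact h c
    rw [MvPolynomial.aeval_eq_eval]
    exact h1 hp

theorem vanishing_eq_radical (n m : ℕ) :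
    vanishingIdeal ℂ (singSet n m) = (detIdeal n m).radical := by
  rw [← zeroLocus_detIdeal, vanishingIdeal_zeroLocus_eq_radical]

/-- `n = 1`. -/
theorem isRadical_one (m : ℕ) : (detIdeal 1 m).IsRadical := by
  classical
  obtain ⟨m0⟩ := exists_monomialOrder (Fin m × Fin 1 × Fin 1)
  have h1 : detIdeal 1 m = Ideal.span (Set.range fun k : Fin m => (X (k, 0, 0) : CoordRing 1 m)) := by
    have hf : ∀ c : Fin m → ℂ, detPoly 1 m c = ∑ k, C (c k) * X (k, 0, 0) := by
      intro c
      rw [detPoly, Matrix.det_fin_one, Matrix.sum_apply]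
      refine Finset.sum_congr rfl fun k _ => ?_
      simp [genericMatrix, MvPolynomial.smul_eq_C_mul]
    apply le_antisymm
    · rw [detIdeal, Ideal.span_le]
      rintro _ ⟨c, rfl⟩
      rw [SetLike.mem_coe, hf]
      exact Ideal.sum_mem _ fun k _ => Ideal.mul_mem_left _ _ (Ideal.subset_span ⟨k, rfl⟩)
    · rw [Ideal.span_le]
      rintro _ ⟨k, rfl⟩
      have h2 : (X (k, 0, 0) : CoordRing 1 m) = detPoly 1 m (Pi.single k 1) := by
        rw [hf, Finset.sum_eq_single k]
        · simp
        · intro l _ hl; simp [Pi.single_eq_of_ne hl]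
        · intro h; exact absurd (Finset.mem_univ _) h
      change (X (k, 0, 0) : CoordRing 1 m) ∈ detIdeal 1 m
      rw [h2]
      exact Ideal.subset_span ⟨_, rfl⟩
  rw [h1]
  apply isRadical_of_coprime_squarefree m0
  · intro k
    rw [m0.degree_X]
    simp
  · intro k s
    rw [m0.degree_X, Finsupp.single_apply]
    split_ifs <;> simp
  · intro k l hkl
    rw [m0.degree_X, m0.degree_X, Finsupp.support_single _ one_ne_zero,
      Finsupp.support_single _ one_ne_zero, Finset.disjoint_singleton]
    intro h
    exact hkl (Prod.ext_iff.mp h).1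

/-- `m = 1`, deduced from `m = 2`. -/
theorem eq_one (n : ℕ) (h2 : detIdeal n 2 = vanishingIdeal ℂ (singSet n 2)) :
    vanishingIdeal ℂ (singSet n 1) ≤ detIdeal n 1 := by
  classical
  intro p hp
  -- include the variables of the first matrix
  let ι : Fin 1 × Fin n × Fin n → Fin 2 × Fin n × Fin n := fun q => (0, q.2)
  let inc : CoordRing n 1 →ₐ[ℂ] CoordRing n 2 := rename ι
  let ret : CoordRing n 2 →ₐ[ℂ] CoordRing n 1 :=
    aeval fun q => if q.1 = 0 then X (0, q.2) else 0
  have hret : ∀ q, ret (inc q) = q := by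
    intro q
    have : ret.comp inc = AlgHom.id ℂ _ := by
      apply MvPolynomial.algHom_ext
      intro q
      have hq : q = (0, q.2) := Prod.ext (Subsingleton.elim _ _) rfl
      simp only [AlgHom.comp_apply, inc, ret, ι, rename_X, aeval_X, if_true, AlgHom.id_apply]
      rw [← hq]
    exact DFunLike.congr_fun this q
  have h3 : inc p ∈ detIdeal n 2 := by
    rw [h2, mem_vanishingIdeal_iff]
    intro x hx
    rw [aeval_rename, ← mem_vanishingIdeal_singleton_iff]
    rw [mem_vanishingIdeal_singleton_iff]
    apply (mem_vanishingIdeal_iff.mp hp)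
    intro c
    have h4 := hx ![c 0, 0]
    rw [Fin.sum_univ_two] at h4
    simpa [ι] using h4
  have h5 : (detIdeal n 2).map ret ≤ detIdeal n 1 := by
    rw [Ideal.map_le_iff_le_comap, detIdeal, Ideal.span_le]
    rintro _ ⟨c, rfl⟩
    change ret (detPoly n 2 c) ∈ detIdeal n 1
    have h6 : ret (detPoly n 2 c) = detPoly n 1 (fun _ => c 0) := by
      have h7 := map_detPoly (ret : CoordRing n 2 →+* CoordRing n 1) c
      have h8 := map_detPoly (RingHom.id (CoordRing n 1)) (fun _ : Fin 1 => c 0)
      rw [RingHom.id_apply] at h8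
      change (ret : CoordRing n 2 →+* CoordRing n 1) (detPoly n 2 c) = _
      rw [h7, h8]
      congr 1
      ext1 i j
      simp [ret]
    rw [h6]
    exact Ideal.subset_span ⟨_, rfl⟩
  rw [← hret p]
  exact h5 (Ideal.mem_map_of_mem _ h3)

/-- **Classification.**  For `n, m ≥ 1`, the determinantal polynomials `f_c` generate the ideal of all
polynomials vanishing on `SING_{n,m}` if and only if `n = 1` or `m ≤ 2`. -/
theorem result (n m : ℕ) (hn : 1 ≤ n) (hm : 1 ≤ m) :
    detIdeal n m = vanishingIdeal ℂ (singSet n m) ↔ n = 1 ∨ m ≤ 2 := by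
  have hle : detIdeal n m ≤ vanishingIdeal ℂ (singSet n m) := by
    rw [vanishing_eq_radical]; exact Ideal.le_radical
  constructor
  · intro h
    by_contra hcon
    push Not at hcon
    obtain ⟨h1, h2⟩ := hcon
    obtain ⟨N, rfl⟩ : ∃ N, n = N + 2 := ⟨n - 2, by omega⟩
    obtain ⟨p, hp, hpJ⟩ := exists_not_mem N m (by omega)
    apply hpJ
    rw [h, mem_vanishingIdeal_iff]
    intro x hx
    rw [MvPolynomial.aeval_eq_eval]
    exact hp x hx
  · intro h
    apply le_antisymm hle
    rcases h with rfl | h
    · rw [vanishing_eq_radical]; exact isRadical_one m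
    · obtain ⟨N, rfl⟩ : ∃ N, n = N + 1 := ⟨n - 1, by omega⟩
      have h2 : detIdeal (N + 1) 2 = vanishingIdeal ℂ (singSet (N + 1) 2) := by
        rw [vanishing_eq_radical]
        exact le_antisymm Ideal.le_radical (detIdeal_two_isRadical N)
      have hm' : m = 1 ∨ m = 2 := by omega
      rcases hm' with rfl | rfl
      · exact eq_one (N + 1) h2
      · exact h2.ge

end Pool.Agent.Results.MP_dea706_ag.Classification
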